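import Mathlib
import Pool.Agent.Q253.Corona

set_option autoImplicit false

namespace Pool.Agent.Results.MP_7e5e3f_co.OddCycleBound

open Finset SimpleGraph Pool.Agent.Q253.Corona

variable {V : Type}

/-- The odd cycles of `G` with all vertices in `U`. -/
def oddIn (G : SimpleGraph V) (U : Finset V) : Set (Set (Sym2 V)) :=
  {F | ∃ (v : V) (c : G.Walk v v), c.IsCycle ∧ Odd c.length ∧ (∀ x ∈ c.support, x ∈ U) ∧
    F = {e | e ∈ c.edges}}

/-- Every set `U` contains an independent set of size at least half of
`|U|` minus the number of odd cycles inside `U`. -/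
theorem half [Fintype V] (G : SimpleGraph V) (k : ℕ) : ∀ U : Finset V, U.card = k →
    ∃ I : Finset V, I ⊆ U ∧ G.IsIndepSet (I : Set V) ∧ U.card ≤ 2 * I.card + (oddIn G U).ncard := by
  classical
  induction k with
  | zero =>
    intro U hU
    exact ⟨∅, by simp, by simp [IsIndepSet, Set.Pairwise], by omega⟩
  | succ k ih =>
    intro U hU
    by_cases hodd : ∃ (v : V) (c : G.Walk v v), c.IsCycle ∧ Odd c.length ∧ ∀ x ∈ c.support, x ∈ U
    · obtain ⟨v, c, hc1, hc2, hc3⟩ := hodd
      have hv : v ∈ U := hc3 v c.start_mem_support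
      obtain ⟨I, hI1, hI2, hI3⟩ := ih (U.erase v) (by rw [card_erase_of_mem hv]; omega)
      refine ⟨I, hI1.trans (erase_subset _ _), hI2, ?_⟩
      have hlt : (oddIn G (U.erase v)).ncard < (oddIn G U).ncard := by
        apply Set.ncard_lt_ncard ?_ (Set.toFinite _)
        rw [Set.ssubset_iff_subset_ne]
        constructor
        · rintro F ⟨w, d, h1, h2, h3, h4⟩
          exact ⟨w, d, h1, h2, fun x hx => mem_of_mem_erase (h3 x hx), h4⟩
        · intro heq
          have hmem : {e | e ∈ c.edges} ∈ oddIn G U := ⟨v, c, hc1, hc2, hc3, rfl⟩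
          rw [← heq] at hmem
          obtain ⟨w, d, h1, h2, h3, h4⟩ := hmem
          have hnil : ¬ c.Nil := hc1.not_nil
          have he : s(v, c.snd) ∈ c.edges := by
            have := c.mk_start_snd_mem_edges hnil
            exact this
          have he2 : s(v, c.snd) ∈ ({e | e ∈ d.edges} : Set (Sym2 V)) := by
            rw [← h4]
            exact he
          have hv2 : v ∈ d.support := d.fst_mem_support_of_mem_edges he2
          have := h3 v hv2
          simp at this
      rw [card_erase_of_mem hv] at hI3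
      omega
    · push Not at hodd
      have hcol : (G.induce (U : Set V)).Colorable 2 := by
        by_contra hcon
        obtain ⟨v, p, hp1, hp2⟩ := exists_odd_cycle hcon
        let f : (G.induce (U : Set V)) →g G := (SimpleGraph.Embedding.induce (U : Set V)).toHom
        have hf : Function.Injective f := fun a b h => Subtype.ext h
        obtain ⟨x, hx, hxU⟩ := hodd (f v) (p.map f) (hp1.map hf) (by
          rw [Walk.length_map]
          exact hp2)
        rw [Walk.support_map, List.mem_map] at hx
        obtain ⟨y, _, rfl⟩ := hx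
        exact hxU y.2
      obtain ⟨col⟩ := hcol
      let A : Fin 2 → Finset V := fun i => U.filter fun v => ∃ h : v ∈ U, col ⟨v, h⟩ = i
      have hA : ∀ i, G.IsIndepSet (A i : Set V) := by
        intro i x hx y hy _ hadj
        obtain ⟨hxU, hx1, hx2⟩ := mem_filter.1 (mem_coe.1 hx)
        obtain ⟨hyU, hy1, hy2⟩ := mem_filter.1 (mem_coe.1 hy)
        have h3 : (G.induce (U : Set V)).Adj ⟨x, hx1⟩ ⟨y, hy1⟩ := hadj
        exact col.valid h3 (hx2.trans hy2.symm)
      have hU2 : U ⊆ A 0 ∪ A 1 := by
        intro v hv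
        rw [mem_union]
        have h2 : ∀ i : Fin 2, i = 0 ∨ i = 1 := by decide
        rcases h2 (col ⟨v, hv⟩) with h | h
        · exact Or.inl (mem_filter.2 ⟨hv, hv, h⟩)
        · exact Or.inr (mem_filter.2 ⟨hv, hv, h⟩)
      have hcard := (card_le_card hU2).trans (card_union_le _ _)
      rcases Nat.le_total (A 0).card (A 1).card with h | h
      · exact ⟨A 1, filter_subset _ _, hA 1, by omega⟩
      · exact ⟨A 0, filter_subset _ _, hA 0, by omega⟩

/-- **Main theorem.** `|corona(G)| + |ker(G)| ≤ 2 α(G) + k`, where `k` is the number of odd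
cycles of the finite graph `G`. -/
theorem result (V : Type) [Fintype V] (G : SimpleGraph V) :
    (corona G).ncard + (ker G).ncard ≤ 2 * G.indepNum + (oddCycles G).ncard := by
  classical
  -- a critical independent set of minimum cardinality
  have hcrit : ∃ X : Finset V, IsCritical G X := by
    obtain ⟨X, hX1, hX2⟩ := exists_max_image
      (univ.filter fun X : Finset V => G.IsIndepSet (X : Set V)) (fun X => diff G X)
      ⟨∅, by simp [IsIndepSet, Set.Pairwise]⟩
    exact ⟨X, (mem_filter.1 hX1).2, fun Y hY => hX2 Y (by simpa using hY)⟩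
  obtain ⟨A, hA1, hA2⟩ := exists_min_image
    (univ.filter fun X : Finset V => IsCritical G X) (fun X => X.card)
    (by obtain ⟨X, hX⟩ := hcrit; exact ⟨X, by simpa using hX⟩)
  have hA : IsCritical G A := (mem_filter.1 hA1).2
  have hAmin : ∀ X : Finset V, IsCritical G X → A.card ≤ X.card := fun X hX =>
    hA2 X (by simpa using hX)
  let NA : Finset V := univ.filter fun v => v ∈ nbr G A
  have hNA : ∀ v, v ∈ NA ↔ ∃ x ∈ A, G.Adj x v := by
    intro v
    simp only [NA, mem_filter, mem_univ, true_and]
    exact Iff.rfl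
  have hNAcard : (nbr G A).ncard = NA.card := by
    rw [← Set.ncard_coe_finset]
    congr 1
    ext v
    simp [NA]
  have hdisj : ∀ v ∈ A, v ∉ NA := by
    intro v hv hv2
    obtain ⟨x, hx, hxv⟩ := (hNA v).1 hv2
    exact hA.1 hx hv hxv.ne hxv
  -- `A` lies in every maximum independent set
  have hcore : ∀ S : Finset V, G.IsMaximumIndepSet S → A ⊆ S := by
    intro S hS
    have hT : G.IsIndepSet (((S \ NA) ∪ A : Finset V) : Set V) := by
      intro x hx y hy hxy hadj
      rw [mem_coe, mem_union, mem_sdiff] at hx hy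
      rcases hx with hx | hx <;> rcases hy with hy | hy
      · exact hS.isIndepSet hx.1 hy.1 hxy hadj
      · exact hx.2 ((hNA x).2 ⟨y, hy, hadj.symm⟩)
      · exact hy.2 ((hNA y).2 ⟨x, hx, hadj⟩)
      · exact hA.1 hx hy hxy hadj
    have h1 := hS.maximum _ hT
    have h2 : ((S \ NA) ∪ A).card = (S \ NA).card + (A \ S).card := by
      have h3 : (S \ NA) ∪ A = (S \ NA) ∪ (A \ S) := by
        ext v
        simp only [mem_union, mem_sdiff]
        constructor
        · rintro (h | h)
          · exact Or.inl h
          · by_cases hv : v ∈ S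
            · exact Or.inl ⟨hv, hdisj v h⟩
            · exact Or.inr ⟨h, hv⟩
        · rintro (h | h)
          · exact Or.inl h
          · exact Or.inr h.1
      rw [h3, card_union_of_disjoint]
      rw [Finset.disjoint_left]
      intro v hv1 hv2
      exact (mem_sdiff.1 hv2).2 (mem_sdiff.1 hv1).1
    have h3 := card_sdiff_add_card_inter S NA
    have h4 : (A \ S).card ≤ (S ∩ NA).card := by omega
    -- `A ∩ S` is critical
    have h5 : IsCritical G (A ∩ S) := by
      refine ⟨fun x hx y hy => ?_, fun Y hY => (hA.2 Y hY).trans ?_⟩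
      · exact hA.1 (mem_inter.1 hx).1 (mem_inter.1 hy).1
      · have h6 : (nbr G (A ∩ S)).ncard ≤ (NA \ S).card := by
          rw [← Set.ncard_coe_finset]
          apply Set.ncard_le_ncard ?_ (Set.toFinite _)
          rintro v ⟨x, hx, hxv⟩
          rw [mem_inter] at hx
          rw [mem_coe, mem_sdiff, hNA]
          exact ⟨⟨x, hx.1, hxv⟩, fun hv => hS.isIndepSet hx.2 hv hxv.ne hxv⟩
        have h7 := card_sdiff_add_card_inter NA S
        have h8 := card_sdiff_add_card_inter A S
        rw [inter_comm] at h7
        unfold diff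
        rw [hNAcard]
        omega
    have h6 := hAmin _ h5
    have h7 : A ∩ S = A := eq_of_subset_of_card_le inter_subset_left h6
    intro v hv
    rw [← h7] at hv
    exact (mem_inter.1 hv).2
  let U : Finset V := univ.filter fun v => v ∉ A ∧ v ∉ NA
  obtain ⟨I, hI1, hI2, hI3⟩ := half G U.card U rfl
  have hcorona : (corona G).ncard ≤ A.card + U.card := by
    have h1 : corona G ⊆ ((A ∪ U : Finset V) : Set V) := by
      rintro v ⟨S, hS, hv⟩
      rw [mem_coe, mem_union]
      by_cases hvA : v ∈ A
      · exact Or.inl hvA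
      · right
        simp only [U, mem_filter, mem_univ, true_and]
        refine ⟨hvA, fun hvN => ?_⟩
        obtain ⟨x, hx, hxv⟩ := (hNA v).1 hvN
        exact hS.isIndepSet (hcore S hS hx) hv hxv.ne hxv
    calc (corona G).ncard ≤ (((A ∪ U : Finset V) : Set V)).ncard :=
          Set.ncard_le_ncard h1 (Set.toFinite _)
      _ = (A ∪ U).card := Set.ncard_coe_finset _
      _ ≤ A.card + U.card := card_union_le _ _
  have hker : (ker G).ncard ≤ A.card := by
    rw [← Set.ncard_coe_finset]
    apply Set.ncard_le_ncard ?_ (Set.toFinite _)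
    intro v hv
    exact hv A hA
  have hind : (A ∪ I).card ≤ G.indepNum := by
    apply IsIndepSet.card_le_indepNum
    intro x hx y hy hxy hadj
    rw [mem_coe, mem_union] at hx hy
    have hIU : ∀ z ∈ I, z ∉ A ∧ z ∉ NA := fun z hz => by
      simpa [U] using hI1 hz
    rcases hx with hx | hx <;> rcases hy with hy | hy
    · exact hA.1 hx hy hxy hadj
    · exact (hIU y hy).2 ((hNA y).2 ⟨x, hx, hadj⟩)
    · exact (hIU x hx).2 ((hNA x).2 ⟨y, hy, hadj.symm⟩)
    · exact hI2 hx hy hxy hadj
  have hunion : (A ∪ I).card = A.card + I.card := by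
    apply card_union_of_disjoint
    rw [Finset.disjoint_left]
    intro v hv hv2
    have := hI1 hv2
    simp only [U, mem_filter, mem_univ, true_and] at this
    exact this.1 hv
  have hodd : (oddIn G U).ncard ≤ (oddCycles G).ncard := by
    apply Set.ncard_le_ncard ?_ (Set.toFinite _)
    rintro F ⟨v, c, h1, h2, _, h4⟩
    exact ⟨v, c, h1, h2, h4⟩
  omega

end Pool.Agent.Results.MP_7e5e3f_co.OddCycleBound
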