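import Mathlib
import Pool.Agent.Q253.Corona

set_option autoImplicit false

namespace Pool.Agent.Results.MP_7e5e3f_co.VariantsFail

open Finset SimpleGraph Pool.Agent.Q253.Corona

/-- `D(G)`: the vertices left uncovered by some maximum matching. -/
def gallaiD {V : Type} (G : SimpleGraph V) : Set V :=
  {v | ∃ M : G.Subgraph, M.IsMatching ∧
    (∀ M' : G.Subgraph, M'.IsMatching → M'.edgeSet.ncard ≤ M.edgeSet.ncard) ∧ v ∉ M.verts}

/-- The maximum number of pairwise vertex-disjoint odd cycles of `G`. -/
noncomputable def oddPacking {V : Type} (G : SimpleGraph V) : ℕ :=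
  sSup {k | ∃ (b : Fin k → V) (c : ∀ i, G.Walk (b i) (b i)),
    (∀ i, (c i).IsCycle ∧ Odd (c i).length) ∧
    ∀ i j, i ≠ j → ∀ x ∈ (c i).support, x ∉ (c j).support}

/-- The complete graph on four vertices. -/
abbrev K4 : SimpleGraph (Fin 4) := ⊤

theorem indep_le (S : Finset (Fin 4)) (hS : K4.IsIndepSet (S : Set (Fin 4))) : S.card ≤ 1 := by
  rw [card_le_one]
  intro a ha b hb
  by_contra hab
  exact hS (mem_coe.2 ha) (mem_coe.2 hb) hab hab

theorem indepNum_K4 : K4.indepNum ≤ 1 := by
  obtain ⟨S, hS⟩ := K4.exists_isNIndepSet_indepNum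
  rw [← hS.card_eq]
  exact indep_le S hS.isIndepSet

theorem corona_K4 : (corona K4).ncard = 4 := by
  have h : corona K4 = Set.univ := by
    ext v
    simp only [Set.mem_univ, iff_true]
    refine ⟨{v}, ⟨by simp, fun t ht => ?_⟩, by simp⟩
    rw [card_singleton]
    exact indep_le t ht
  rw [h, Set.ncard_univ]
  simp

theorem cycle_card {v : Fin 4} (c : K4.Walk v v) (hc : c.IsCycle) :
    3 ≤ c.support.toFinset.card := by
  have h1 : c.support.tail.toFinset.card = c.length := by
    rw [List.toFinset_card_of_nodup hc.support_nodup, List.length_tail, Walk.length_support]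
    rfl
  have h2 := hc.three_le_length
  have h3 : c.support.tail.toFinset.card ≤ c.support.toFinset.card := by
    apply card_le_card
    intro x hx
    rw [List.mem_toFinset] at hx ⊢
    exact List.mem_of_mem_tail hx
  omega

theorem packing_K4 : oddPacking K4 ≤ 1 := by
  unfold oddPacking
  apply csSup_le
  · exact ⟨0, Fin.elim0, fun i => i.elim0, fun i => i.elim0, fun i => i.elim0⟩
  · rintro k ⟨b, c, h1, h2⟩
    by_contra hk
    push Not at hk
    have h3 := cycle_card (c ⟨0, by omega⟩) (h1 _).1
    have h4 := cycle_card (c ⟨1, by omega⟩) (h1 _).1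
    have h5 : Disjoint (c ⟨0, by omega⟩).support.toFinset (c ⟨1, by omega⟩).support.toFinset := by
      rw [Finset.disjoint_left]
      intro x hx hx2
      rw [List.mem_toFinset] at hx hx2
      exact h2 ⟨0, by omega⟩ ⟨1, by omega⟩ (by simp) x hx hx2
    have h6 := card_union_of_disjoint h5
    have h7 := card_le_univ ((c ⟨0, by omega⟩).support.toFinset ∪
      (c ⟨1, by omega⟩).support.toFinset)
    rw [Fintype.card_fin] at h7
    omega

/-- A perfect matching of `K4`. -/
def M0 : K4.Subgraph where
  verts := Set.univ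
  Adj a b := a.1 + b.1 = 3
  adj_sub := by
    intro a b h
    change a ≠ b
    rintro rfl
    omega
  edge_vert := fun _ => Set.mem_univ _
  symm := ⟨fun a b h => by
    rw [add_comm]
    exact h⟩

theorem M0_matching : M0.IsMatching := by
  intro v _
  refine ⟨⟨3 - v.1, by omega⟩, ?_, ?_⟩
  · change v.1 + (3 - v.1) = 3
    omega
  · intro w hw
    ext
    have : v.1 + w.1 = 3 := hw
    simp only
    omega

theorem M0_card : 2 ≤ M0.edgeSet.ncard := by
  have h1 : ({s((0 : Fin 4), (3 : Fin 4)), s((1 : Fin 4), (2 : Fin 4))} : Set (Sym2 (Fin 4))) ⊆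
      M0.edgeSet := by
    intro e he
    rcases he with rfl | rfl
    · exact Subgraph.mem_edgeSet.2 rfl
    · exact Subgraph.mem_edgeSet.2 rfl
  calc 2 = ({s((0 : Fin 4), (3 : Fin 4)), s((1 : Fin 4), (2 : Fin 4))} :
        Set (Sym2 (Fin 4))).ncard := by
        rw [Set.ncard_pair]
        decide
    _ ≤ _ := Set.ncard_le_ncard h1 (Set.toFinite _)

theorem gallaiD_K4 : gallaiD K4 = ∅ := by
  rw [Set.eq_empty_iff_forall_notMem]
  rintro v ⟨M, hM1, hM2, hM3⟩
  have h1 := M0_card.trans (hM2 M0 M0_matching)
  obtain ⟨e, f, he, hf, hef⟩ := (Set.one_lt_ncard_iff (Set.toFinite _)).1 (show 1 < M.edgeSet.ncard by omega)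
  induction e using Sym2.ind with
  | h a b =>
    induction f using Sym2.ind with
    | h c d =>
      rw [Subgraph.mem_edgeSet] at he hf
      have ha := M.edge_vert he
      have hb := M.edge_vert he.symm
      have hc := M.edge_vert hf
      have hd := M.edge_vert hf.symm
      have n1 : v ≠ a := fun h => hM3 (h ▸ ha)
      have n2 : v ≠ b := fun h => hM3 (h ▸ hb)
      have n3 : v ≠ c := fun h => hM3 (h ▸ hc)
      have n4 : v ≠ d := fun h => hM3 (h ▸ hd)
      have n5 : a ≠ b := he.ne
      have n6 : c ≠ d := hf.ne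
      have uniq : ∀ x y z, M.Adj x y → M.Adj x z → y = z := fun x y z hy hz =>
        (hM1 (M.edge_vert hy)).unique hy hz
      have n7 : a ≠ c := by
        rintro rfl
        exact hef (by rw [uniq _ _ _ he hf])
      have n8 : a ≠ d := by
        rintro rfl
        exact hef (by rw [uniq _ _ _ he hf.symm, Sym2.eq_swap])
      have n9 : b ≠ c := by
        rintro rfl
        exact hef (by rw [uniq _ _ _ he.symm hf, Sym2.eq_swap])
      have n10 : b ≠ d := by
        rintro rfl
        exact hef (by rw [uniq _ _ _ he.symm hf.symm])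
      omega

/-- The complete graph on four vertices refutes both variants of the inequality. -/
theorem result :
    (¬ ∀ (V : Type) [Fintype V] (G : SimpleGraph V),
      (corona G).ncard + (ker G).ncard ≤
        2 * G.indepNum + (oddCycles (G.induce (gallaiD G))).ncard) ∧
    ¬ ∀ (V : Type) [Fintype V] (G : SimpleGraph V),
      (corona G).ncard + (ker G).ncard ≤ 2 * G.indepNum + oddPacking G := by
  constructor
  · intro h
    have h1 := h (Fin 4) K4
    rw [corona_K4] at h1
    have h2 := indepNum_K4
    have h3 : oddCycles (K4.induce (gallaiD K4)) = ∅ := by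
      rw [Set.eq_empty_iff_forall_notMem]
      rintro F ⟨v, _⟩
      exact Set.eq_empty_iff_forall_notMem.1 gallaiD_K4 v.1 v.2
    rw [h3, Set.ncard_empty] at h1
    omega
  · intro h
    have h1 := h (Fin 4) K4
    rw [corona_K4] at h1
    have h2 := indepNum_K4
    have h3 := packing_K4
    omega

end Pool.Agent.Results.MP_7e5e3f_co.VariantsFail
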